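import Pool.Agent.helper94.SCT.Spec

/-!
# sct:FIN2 (MP_ad8ced_nt)
-/

set_option autoImplicit false

namespace Pool.Agent.SCT

open Finset ArithmeticFunction MeasureTheory

private theorem FIN2_tot (x B : ℕ) :
    Tot x B = ∑ p ∈ (Ioc x (2 * x)).filter Nat.Prime, cnb B p := by
  unfold Tot cnt cnb
  simp only [Finset.card_filter]
  rw [Finset.sum_filter, Finset.sum_comm]
  refine Finset.sum_congr rfl fun p _ => ?_
  by_cases hp : p.Prime
  · rw [if_pos hp]
    refine Finset.sum_congr rfl fun b _ => ?_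
    simp [hp]
  · rw [if_neg hp]
    refine Finset.sum_eq_zero fun b _ => ?_
    simp [hp]

private theorem FIN2_cnb {C : ℝ} (hC : ∀ y H : ℕ, 2 ≤ H →
    (#((Ioc y (y + H)).filter Nat.Prime) : ℝ) ≤ C * H / Real.log H) (B p : ℕ) (hB : 2 ≤ B)
    (hp : B < 8 * p ^ 2) : (cnb B p : ℝ) ≤ C * B / Real.log B := by
  refine le_trans ?_ (hC (8 * p ^ 2 - B - 1) B hB)
  unfold cnb
  have h : #((Icc 1 B).filter fun b => (8 * p ^ 2 - b).Prime) ≤
      #((Ioc (8 * p ^ 2 - B - 1) (8 * p ^ 2 - B - 1 + B)).filter Nat.Prime) := by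
    refine Finset.card_le_card_of_injOn (fun b => 8 * p ^ 2 - b) ?_ ?_
    · intro b hb
      have hb1 := Finset.mem_filter.1 (Finset.mem_coe.1 hb)
      have hb2 := Finset.mem_Icc.1 hb1.1
      apply Finset.mem_coe.2
      rw [Finset.mem_filter, Finset.mem_Ioc]
      refine ⟨⟨?_, ?_⟩, hb1.2⟩
      · show 8 * p ^ 2 - B - 1 < 8 * p ^ 2 - b
        omega
      · show 8 * p ^ 2 - b ≤ 8 * p ^ 2 - B - 1 + B
        omega
    · intro b hb b' hb' h
      have hb1 := Finset.mem_Icc.1 (Finset.mem_filter.1 (Finset.mem_coe.1 hb)).1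
      have hb1' := Finset.mem_Icc.1 (Finset.mem_filter.1 (Finset.mem_coe.1 hb')).1
      have h' : 8 * p ^ 2 - b = 8 * p ^ 2 - b' := h
      omega
  exact_mod_cast h

theorem FIN2 (hASY : ASY_stmt) (hBTI : BTI_stmt) : FIN2_stmt := by
  intro ε hε
  obtain ⟨x₀, hx₀⟩ := hASY ε (1 / 4) hε (by norm_num)
  obtain ⟨C, hC0, hC⟩ := hBTI
  refine ⟨1 / (12 * C), max x₀ 3, by positivity, fun x hx B hB1 hB2 => ?_⟩
  have hxx : x₀ ≤ x := le_trans (le_max_left _ _) hx
  have hx3 : 3 ≤ x := le_trans (le_max_right _ _) hx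
  have hxr : (3 : ℝ) ≤ x := by exact_mod_cast hx3
  have hx0 : (0 : ℝ) < x := by linarith
  have hL : 0 < Real.log x := Real.log_pos (by linarith)
  have hpw : 0 < (x : ℝ) ^ (2 / 3 + ε) := Real.rpow_pos_of_pos hx0 _
  have hBpos : (0 : ℝ) < B := lt_of_lt_of_le hpw hB1
  have hlB : 2 / 3 * Real.log x ≤ Real.log B := by
    have h1 := Real.log_le_log hpw hB1
    rw [Real.log_rpow hx0] at h1
    nlinarith
  have hlB0 : 0 < Real.log B := lt_of_lt_of_le (by positivity) hlB
  have hB2' : 2 ≤ B := by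
    by_contra hc
    have : B = 0 ∨ B = 1 := by omega
    rcases this with h | h <;> rw [h] at hlB0 <;> simp at hlB0
  have hasy := (abs_le.1 (hx₀ x hxx B hB1 hB2)).1
  have hTot : 1 / 4 * (B * x / Real.log x ^ 2) ≤ (Tot x B : ℝ) := by
    have e1 : (B : ℝ) * x / (2 * Real.log x ^ 2) = 1 / 2 * (B * x / Real.log x ^ 2) := by
      field_simp
    rw [e1] at hasy
    linarith
  -- bound for each prime
  have hcnb : ∀ p ∈ (Ioc x (2 * x)).filter Nat.Prime, (cnb B p : ℝ) ≤ 3 / 2 * C * B / Real.log x := by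
    intro p hp
    have hp1 := (Finset.mem_Ioc.1 (Finset.mem_filter.1 hp).1).1
    have h1 : B < 8 * p ^ 2 := by nlinarith
    refine le_trans (FIN2_cnb hC B p hB2' h1) ?_
    rw [div_le_div_iff₀ hlB0 hL]
    have h2 : 0 < C * B := by positivity
    nlinarith [mul_le_mul_of_nonneg_left hlB h2.le]
  have hP := hC x x (by omega)
  rw [← two_mul] at hP
  set P := (Ioc x (2 * x)).filter Nat.Prime with hPdef
  set c := 1 / (12 * C) with hc
  have hc0 : 0 < c := by rw [hc]; positivity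
  have hGeq : (Ioc x (2 * x)).filter (fun p => p.Prime ∧ c * B / Real.log x ≤ cnb B p) =
      P.filter fun p => c * B / Real.log x ≤ cnb B p := by
    rw [hPdef, Finset.filter_filter]
  rw [hGeq]
  have hsum : (Tot x B : ℝ) ≤ #P * (c * B / Real.log x) +
      #(P.filter fun p => c * B / Real.log x ≤ cnb B p) * (3 / 2 * C * B / Real.log x) := by
    rw [FIN2_tot x B]
    push_cast
    rw [← hPdef, ← Finset.sum_filter_add_sum_filter_not P (fun p => c * B / Real.log x ≤ (cnb B p : ℝ))]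
    have h1 : ∑ p ∈ P.filter (fun p => c * B / Real.log x ≤ (cnb B p : ℝ)), (cnb B p : ℝ) ≤
        #(P.filter fun p => c * B / Real.log x ≤ (cnb B p : ℝ)) * (3 / 2 * C * B / Real.log x) := by
      rw [← nsmul_eq_mul]
      exact Finset.sum_le_card_nsmul _ _ _ fun p hp => hcnb p (Finset.mem_filter.1 hp).1
    have h2 : ∑ p ∈ P.filter (fun p => ¬ c * B / Real.log x ≤ (cnb B p : ℝ)), (cnb B p : ℝ) ≤
        #P * (c * B / Real.log x) := by
      have h3 : ∑ p ∈ P.filter (fun p => ¬ c * B / Real.log x ≤ (cnb B p : ℝ)), (cnb B p : ℝ) ≤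
          #(P.filter fun p => ¬ c * B / Real.log x ≤ (cnb B p : ℝ)) * (c * B / Real.log x) := by
        rw [← nsmul_eq_mul]
        exact Finset.sum_le_card_nsmul _ _ _ fun p hp => (not_le.1 (Finset.mem_filter.1 hp).2).le
      have h4 : (#(P.filter fun p => ¬ c * B / Real.log x ≤ (cnb B p : ℝ)) : ℝ) ≤ #P := by
        exact_mod_cast Finset.card_filter_le _ _
      have h5 : 0 ≤ c * B / Real.log x := by positivity
      nlinarith [mul_le_mul_of_nonneg_right h4 h5]
    linarith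
  have h6 : (#P : ℝ) * (c * B / Real.log x) ≤ 1 / 12 * (B * x / Real.log x ^ 2) := by
    have h7 : 0 ≤ c * B / Real.log x := by positivity
    refine le_trans (mul_le_mul_of_nonneg_right hP h7) (le_of_eq ?_)
    rw [hc]
    field_simp
  have h8 : 1 / 6 * (B * x / Real.log x ^ 2) ≤
      #(P.filter fun p => c * B / Real.log x ≤ cnb B p) * (3 / 2 * C * B / Real.log x) := by
    linarith
  have h9 : 0 < 3 / 2 * C * B / Real.log x := by positivity
  have h10 : c * x / Real.log x * (3 / 2 * C * B / Real.log x) = 1 / 8 * (B * x / Real.log x ^ 2) := by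
    rw [hc]
    field_simp
    norm_num
  have h11 : 0 < B * x / Real.log x ^ 2 := by positivity
  refine le_of_mul_le_mul_right ?_ h9
  rw [h10]
  linarith

end Pool.Agent.SCT
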