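import Pool.Agent.helper94.SCT.Spec

/-!
# sct:SEC (MP_ad8ced_nt)
-/

set_option autoImplicit false

namespace Pool.Agent.SCT

open Finset ArithmeticFunction MeasureTheory

/-- indicator -/
private noncomputable def SEC_i (p b : ℕ) : ℝ := if (8 * p ^ 2 - b).Prime then 1 else 0

private theorem SEC_cnt (x b : ℕ) :
    (cnt x b : ℝ) = ∑ p ∈ (Ioc x (2 * x)).filter Nat.Prime, SEC_i p b := by
  unfold cnt SEC_i
  rw [← Finset.filter_filter, Finset.sum_boole]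

private theorem SEC_off {C : ℝ} (hC : ∀ (y H : ℕ) (a : ℤ), 2 ≤ H → a ≠ 0 →
    (#((Ioc y (y + H)).filter fun n : ℕ => n.Prime ∧ ((n : ℤ) - a).natAbs.Prime) : ℝ) ≤
    C * H / Real.log H ^ 2 * ff a.natAbs) (B p q : ℕ) (hB : 2 ≤ B) (hp : B < 8 * p ^ 2)
    (hq : B < 8 * q ^ 2) (hpq : q ≠ p) :
    ∑ b ∈ Icc 1 B, SEC_i p b * SEC_i q b ≤
      C * B / Real.log B ^ 2 * ff (8 * ((p : ℤ) ^ 2 - (q : ℤ) ^ 2)).natAbs := by
  have ha : 8 * ((p : ℤ) ^ 2 - (q : ℤ) ^ 2) ≠ 0 := by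
    intro h
    have h1 : (p : ℤ) ^ 2 = (q : ℤ) ^ 2 := by omega
    have h2 : p ^ 2 = q ^ 2 := by exact_mod_cast h1
    exact hpq ((Nat.pow_left_injective (n := 2) two_ne_zero) h2).symm
  refine le_trans ?_ (hC (8 * p ^ 2 - B - 1) B _ hB ha)
  have e1 : ∑ b ∈ Icc 1 B, SEC_i p b * SEC_i q b =
      (#((Icc 1 B).filter fun b => (8 * p ^ 2 - b).Prime ∧ (8 * q ^ 2 - b).Prime) : ℝ) := by
    rw [← Finset.sum_boole]
    refine Finset.sum_congr rfl fun b _ => ?_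
    unfold SEC_i
    by_cases h1 : (8 * p ^ 2 - b).Prime <;> by_cases h2 : (8 * q ^ 2 - b).Prime <;> simp [h1, h2]
  rw [e1]
  have h : #((Icc 1 B).filter fun b => (8 * p ^ 2 - b).Prime ∧ (8 * q ^ 2 - b).Prime) ≤
      #((Ioc (8 * p ^ 2 - B - 1) (8 * p ^ 2 - B - 1 + B)).filter fun n : ℕ => n.Prime ∧
        ((n : ℤ) - 8 * ((p : ℤ) ^ 2 - (q : ℤ) ^ 2)).natAbs.Prime) := by
    refine Finset.card_le_card_of_injOn (fun b => 8 * p ^ 2 - b) ?_ ?_
    · intro b hb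
      have hb1 := Finset.mem_filter.1 (Finset.mem_coe.1 hb)
      have hb2 := Finset.mem_Icc.1 hb1.1
      apply Finset.mem_coe.2
      rw [Finset.mem_filter, Finset.mem_Ioc]
      refine ⟨⟨?_, ?_⟩, hb1.2.1, ?_⟩
      · show 8 * p ^ 2 - B - 1 < 8 * p ^ 2 - b
        omega
      · show 8 * p ^ 2 - b ≤ 8 * p ^ 2 - B - 1 + B
        omega
      · have h3 : (((8 * p ^ 2 - b : ℕ) : ℤ) - 8 * ((p : ℤ) ^ 2 - (q : ℤ) ^ 2)).natAbs =
            8 * q ^ 2 - b := by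
          have h4 : ((8 * p ^ 2 - b : ℕ) : ℤ) = 8 * (p : ℤ) ^ 2 - b := by
            push_cast [show b ≤ 8 * p ^ 2 by omega]
            ring
          have h5 : ((8 * q ^ 2 - b : ℕ) : ℤ) = 8 * (q : ℤ) ^ 2 - b := by
            push_cast [show b ≤ 8 * q ^ 2 by omega]
            ring
          rw [h4, show 8 * (p : ℤ) ^ 2 - b - 8 * ((p : ℤ) ^ 2 - (q : ℤ) ^ 2) = 8 * (q : ℤ) ^ 2 - b by ring,
            ← h5, Int.natAbs_natCast]
        show (((8 * p ^ 2 - b : ℕ) : ℤ) - 8 * ((p : ℤ) ^ 2 - (q : ℤ) ^ 2)).natAbs.Prime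
        rw [h3]
        exact hb1.2.2
    · intro b hb b' hb' h
      have hb1 := Finset.mem_Icc.1 (Finset.mem_filter.1 (Finset.mem_coe.1 hb)).1
      have hb1' := Finset.mem_Icc.1 (Finset.mem_filter.1 (Finset.mem_coe.1 hb')).1
      have h' : 8 * p ^ 2 - b = 8 * p ^ 2 - b' := h
      omega
  exact_mod_cast h

private theorem SEC_diag {C : ℝ} (hC : ∀ y H : ℕ, 2 ≤ H →
    (#((Ioc y (y + H)).filter Nat.Prime) : ℝ) ≤ C * H / Real.log H) (B p : ℕ) (hB : 2 ≤ B)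
    (hp : B < 8 * p ^ 2) : ∑ b ∈ Icc 1 B, SEC_i p b * SEC_i p b ≤ C * B / Real.log B := by
  refine le_trans ?_ (hC (8 * p ^ 2 - B - 1) B hB)
  have e1 : ∑ b ∈ Icc 1 B, SEC_i p b * SEC_i p b =
      (#((Icc 1 B).filter fun b => (8 * p ^ 2 - b).Prime) : ℝ) := by
    rw [← Finset.sum_boole]
    refine Finset.sum_congr rfl fun b _ => ?_
    unfold SEC_i
    by_cases h1 : (8 * p ^ 2 - b).Prime <;> simp [h1]
  rw [e1]
  have h : #((Icc 1 B).filter fun b => (8 * p ^ 2 - b).Prime) ≤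
      #((Ioc (8 * p ^ 2 - B - 1) (8 * p ^ 2 - B - 1 + B)).filter Nat.Prime) := by
    refine Finset.card_le_card_of_injOn (fun b => 8 * p ^ 2 - b) ?_ ?_
    · intro b hb
      have hb1 := Finset.mem_filter.1 (Finset.mem_coe.1 hb)
      have hb2 := Finset.mem_Icc.1 hb1.1
      apply Finset.mem_coe.2
      rw [Finset.mem_filter, Finset.mem_Ioc]
      refine ⟨⟨?_, ?_⟩, hb1.2⟩
      · show 8 * p ^ 2 - B - 1 < 8 * p ^ 2 - b
        omega
      · show 8 * p ^ 2 - b ≤ 8 * p ^ 2 - B - 1 + B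
        omega
    · intro b hb b' hb' h
      have hb1 := Finset.mem_Icc.1 (Finset.mem_filter.1 (Finset.mem_coe.1 hb)).1
      have hb1' := Finset.mem_Icc.1 (Finset.mem_filter.1 (Finset.mem_coe.1 hb')).1
      have h' : 8 * p ^ 2 - b = 8 * p ^ 2 - b' := h
      omega
  exact_mod_cast h

theorem SEC (hTWS : TWS_stmt) (hBTI : BTI_stmt) (hPAV : PAV_stmt) : SEC_stmt := by
  obtain ⟨C1, hC1, h1⟩ := hTWS
  obtain ⟨C3, hC3, h3⟩ := hBTI
  obtain ⟨C2, x₀, hC2, h2⟩ := hPAV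
  refine ⟨4 * C1 * C2 + 8 * C3 ^ 2, max x₀ 3, by positivity, fun x hx B hB1 hB2 => ?_⟩
  have hxx : x₀ ≤ x := le_trans (le_max_left _ _) hx
  have hx3 : 3 ≤ x := le_trans (le_max_right _ _) hx
  have hxr : (3 : ℝ) ≤ x := by exact_mod_cast hx3
  have hx0 : (0 : ℝ) < x := by linarith
  have hL : 0 < Real.log x := Real.log_pos (by linarith)
  have hpw : 0 < (x : ℝ) ^ (1 / 2 : ℝ) := Real.rpow_pos_of_pos hx0 _
  have hBpos : (0 : ℝ) < B := lt_of_lt_of_le hpw hB1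
  have hlB : 1 / 2 * Real.log x ≤ Real.log B := by
    have h4 := Real.log_le_log hpw hB1
    rw [Real.log_rpow hx0] at h4
    exact h4
  have hlB0 : 0 < Real.log B := lt_of_lt_of_le (by positivity) hlB
  have hB2' : 2 ≤ B := by
    by_contra hc
    have : B = 0 ∨ B = 1 := by omega
    rcases this with h | h <;> rw [h] at hlB0 <;> simp at hlB0
  have hlog : Real.log x ^ 2 ≤ 4 * x := by
    have h4 : Real.log x ≤ 2 * Real.sqrt x := by
      have h5 := Real.log_le_sub_one_of_pos (Real.sqrt_pos.2 hx0)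
      rw [Real.log_sqrt hx0.le] at h5
      linarith
    calc (Real.log (x : ℝ)) ^ 2 ≤ (2 * Real.sqrt (x : ℝ)) ^ 2 := by
          exact pow_le_pow_left₀ hL.le h4 2
      _ = 4 * (x : ℝ) := by rw [mul_pow, Real.sq_sqrt hx0.le]; norm_num
  set P := (Ioc x (2 * x)).filter Nat.Prime with hPdef
  have hPmem : ∀ p ∈ P, B < 8 * p ^ 2 := by
    intro p hp
    have hp1 := (Finset.mem_Ioc.1 (Finset.mem_filter.1 hp).1).1
    nlinarith
  have hexp : ∑ b ∈ Icc 1 B, (cnt x b : ℝ) ^ 2 =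
      ∑ p ∈ P, ∑ q ∈ P, ∑ b ∈ Icc 1 B, SEC_i p b * SEC_i q b := by
    have e1 : ∀ b ∈ Icc 1 B, (cnt x b : ℝ) ^ 2 = ∑ p ∈ P, ∑ q ∈ P, SEC_i p b * SEC_i q b := by
      intro b _
      rw [SEC_cnt, sq, Finset.sum_mul_sum]
    rw [Finset.sum_congr rfl e1, Finset.sum_comm]
    refine Finset.sum_congr rfl fun p _ => ?_
    rw [Finset.sum_comm]
  rw [hexp]
  have hrow : ∀ p ∈ P, ∑ q ∈ P, ∑ b ∈ Icc 1 B, SEC_i p b * SEC_i q b ≤
      C3 * B / Real.log B + C1 * B / Real.log B ^ 2 *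
        ∑ q ∈ (Ioc x (2 * x)).filter (fun q : ℕ => q.Prime ∧ q ≠ p),
          ff (8 * ((p : ℤ) ^ 2 - (q : ℤ) ^ 2)).natAbs := by
    intro p hp
    rw [← Finset.add_sum_erase P _ hp]
    refine add_le_add (SEC_diag h3 B p hB2' (hPmem p hp)) ?_
    have e2 : P.erase p = (Ioc x (2 * x)).filter (fun q : ℕ => q.Prime ∧ q ≠ p) := by
      ext q
      simp only [hPdef, Finset.mem_erase, Finset.mem_filter]
      tauto
    rw [e2, Finset.mul_sum]
    refine Finset.sum_le_sum fun q hq => ?_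
    have hq1 := Finset.mem_filter.1 hq
    exact SEC_off h1 B p q hB2' (hPmem p hp) (hPmem q (Finset.mem_filter.2 ⟨hq1.1, hq1.2.1⟩)) hq1.2.2
  have hPcard := h3 x x (by omega)
  rw [← two_mul, ← hPdef] at hPcard
  have hpav := h2 x hxx
  rw [← hPdef] at hpav
  have hsum := Finset.sum_le_sum hrow
  rw [Finset.sum_add_distrib, Finset.sum_const, nsmul_eq_mul, ← Finset.mul_sum] at hsum
  refine le_trans hsum ?_
  have i1 : C3 * B / Real.log B ≤ 2 * C3 * B / Real.log x := by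
    rw [div_le_div_iff₀ hlB0 hL]
    have : 0 < C3 * B := by positivity
    nlinarith [mul_le_mul_of_nonneg_left hlB this.le]
  have i2 : (#P : ℝ) * (C3 * B / Real.log B) ≤ 8 * C3 ^ 2 * (B * x ^ 2 / Real.log x ^ 4) := by
    have j1 : (#P : ℝ) * (C3 * B / Real.log B) ≤ C3 * x / Real.log x * (2 * C3 * B / Real.log x) :=
      mul_le_mul hPcard i1 (by positivity) (by positivity)
    have j2 : C3 * x / Real.log x * (2 * C3 * B / Real.log x) =
        2 * C3 ^ 2 * (B * x / Real.log x ^ 4) * Real.log x ^ 2 := by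
      field_simp
    have j3 : 2 * C3 ^ 2 * (B * x / Real.log x ^ 4) * Real.log x ^ 2 ≤
        2 * C3 ^ 2 * (B * x / Real.log x ^ 4) * (4 * x) :=
      mul_le_mul_of_nonneg_left hlog (by positivity)
    have j4 : 2 * C3 ^ 2 * (B * x / Real.log x ^ 4) * (4 * x) =
        8 * C3 ^ 2 * (B * x ^ 2 / Real.log x ^ 4) := by
      ring
    linarith
  have i3 : C1 * B / Real.log B ^ 2 ≤ 4 * C1 * B / Real.log x ^ 2 := by
    rw [div_le_div_iff₀ (by positivity) (by positivity)]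
    have j1 : (1 / 2 * Real.log x) ^ 2 ≤ Real.log B ^ 2 := pow_le_pow_left₀ (by positivity) hlB 2
    have : 0 < C1 * B := by positivity
    nlinarith [mul_le_mul_of_nonneg_left j1 this.le]
  have i4 : C1 * B / Real.log B ^ 2 * ∑ p ∈ P, ∑ q ∈ (Ioc x (2 * x)).filter (fun q : ℕ => q.Prime ∧ q ≠ p),
      ff (8 * ((p : ℤ) ^ 2 - (q : ℤ) ^ 2)).natAbs ≤ 4 * C1 * C2 * (B * x ^ 2 / Real.log x ^ 4) := by
    have j1 : C1 * B / Real.log B ^ 2 * ∑ p ∈ P,
        ∑ q ∈ (Ioc x (2 * x)).filter (fun q : ℕ => q.Prime ∧ q ≠ p),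
        ff (8 * ((p : ℤ) ^ 2 - (q : ℤ) ^ 2)).natAbs ≤
        C1 * B / Real.log B ^ 2 * (C2 * (x : ℝ) ^ 2 / Real.log x ^ 2) :=
      mul_le_mul_of_nonneg_left hpav (by positivity)
    have j2 : C1 * B / Real.log B ^ 2 * (C2 * (x : ℝ) ^ 2 / Real.log x ^ 2) ≤
        4 * C1 * B / Real.log x ^ 2 * (C2 * (x : ℝ) ^ 2 / Real.log x ^ 2) :=
      mul_le_mul_of_nonneg_right i3 (by positivity)
    have j3 : 4 * C1 * B / Real.log x ^ 2 * (C2 * (x : ℝ) ^ 2 / Real.log x ^ 2) =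
        4 * C1 * C2 * (B * x ^ 2 / Real.log x ^ 4) := by
      field_simp
    linarith
  have i5 : (4 * C1 * C2 + 8 * C3 ^ 2) * B * (x : ℝ) ^ 2 / Real.log x ^ 4 =
      8 * C3 ^ 2 * (B * x ^ 2 / Real.log x ^ 4) + 4 * C1 * C2 * (B * x ^ 2 / Real.log x ^ 4) := by
    ring
  rw [i5]
  exact add_le_add i2 i4

end Pool.Agent.SCT
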